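import Pool.Agent.Run7.h373.CK.Stm
import Pool.Agent.W505.CG.Root

/-!
Piece SPL of project CK (helper373): primes `q ≡ 1` mod `M₀` at which `A` splits into different linear
factors and which have a further simple point `β`.
-/

set_option autoImplicit false

namespace Run7.h141.CK

open Polynomial NumberField Pool.Agent.W289.CG Pool.Agent.Run7.h373.CK Pool.Agent.W505.CG

lemma list_ofFn_exists {α : Type} (l : List α) (n : ℕ) (h : l.length = n) :
    ∃ r : Fin n → α, List.ofFn r = l := by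
  subst h
  exact ⟨l.get, List.ofFn_get l⟩

lemma der_ne {n M : ℕ} (D : Dt n M) : 1 ≤ n := by
  have h := congrArg natDegree D.hfac
  rw [D.hn, D.hQ.natDegree_mul (monic_prod_X_sub_C _ _)] at h
  have := D.hQ1
  omega

/-- the complex roots of `A` -/
lemma roots_C {n M : ℕ} (D : Dt n M) :
    ∃ r : Fin n → ℂ, Function.Injective r ∧ D.A.map (Int.castRingHom ℂ) = pA r := by
  set f := D.A.map (Int.castRingHom ℂ) with hf
  have hfm : f.Monic := D.hA.map _
  have hf0 : f ≠ 0 := hfm.ne_zero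
  have hsp : f.Splits := IsAlgClosed.splits f
  have hdeg : f.natDegree = n := by
    rw [hf, D.hA.natDegree_map, D.hn]
  have hcard : f.roots.card = n := by
    rw [← hsp.natDegree_eq_card_roots, hdeg]
  have heval : ∀ (z : ℂ) (p : ℤ[X]), (p.map (Int.castRingHom ℂ)).eval z = aeval z p := by
    intro z p
    rw [eval_map, aeval_def]
    rfl
  have hnd : f.roots.Nodup := by
    rw [Multiset.nodup_iff_count_le_one]
    intro z
    rw [count_roots]
    by_contra hlt
    rw [not_le, one_lt_rootMultiplicity_iff_isRoot hf0] at hlt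
    obtain ⟨h1, h2⟩ := hlt
    rw [IsRoot.def] at h1 h2
    rw [hf, heval] at h1
    rw [hf, derivative_map, heval] at h2
    exact D.hsep z h1 h2
  obtain ⟨r, hr⟩ := list_ofFn_exists f.roots.toList n (by rw [Multiset.length_toList, hcard])
  have hr' : (List.ofFn r : Multiset ℂ) = f.roots := by
    rw [hr, Multiset.coe_toList]
  refine ⟨r, ?_, ?_⟩
  · rw [← List.nodup_ofFn, ← Multiset.coe_nodup, hr']
    exact hnd
  · rw [hsp.eq_prod_roots_of_monic hfm, ← hr', Multiset.map_coe, Multiset.prod_coe, List.map_ofFn,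
      List.prod_ofFn]
    rfl

theorem t_SPL : S_SPL := by
  intro n M D M₀ Q₀ hM
  have hn : 1 ≤ n := der_ne D
  obtain ⟨r, hrinj, hrA⟩ := roots_C D
  obtain ⟨β, hAβC, hA'β, hβpt⟩ := D.hβ
  set A := D.A with hA
  obtain ⟨ζ, hζp⟩ : ∃ ζ : ℂ, IsPrimitiveRoot ζ M₀ :=
    ⟨_, Complex.isPrimitiveRoot_exp M₀ (by omega)⟩
  have hζi : IsIntegral ℤ ζ := hζp.isIntegral (by omega)
  have hβi : IsIntegral ℤ (β : ℂ) := by
    refine ⟨A - C D.c, ?_, ?_⟩
    · refine D.hA.sub_of_left ?_
      refine lt_of_le_of_lt degree_C_le ?_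
      rw [← natDegree_pos_iff_degree_pos, D.hn]
      omega
    · rw [← aeval_def, map_sub, hAβC, aeval_C]
      simp
  have hri : ∀ i, IsIntegral ℤ (r i) := by
    intro i
    refine ⟨A, D.hA, ?_⟩
    have h1 : (A.map (Int.castRingHom ℂ)).eval (r i) = 0 := by
      rw [hrA, pA, eval_prod]
      exact Finset.prod_eq_zero (Finset.mem_univ i) (by simp)
    rw [eval_map] at h1
    exact h1
  set L := IntermediateField.adjoin ℚ (({β, ζ} : Set ℂ) ∪ Set.range r) with hL
  have hfd : FiniteDimensional ℚ L := by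
    have hfin : (({β, ζ} : Set ℂ) ∪ Set.range r).Finite :=
      Set.Finite.union (Set.toFinite _) (Set.finite_range r)
    have : Finite ↑(({β, ζ} : Set ℂ) ∪ Set.range r) := hfin
    refine IntermediateField.finiteDimensional_adjoin fun x hx => ?_
    rcases hx with (rfl | rfl) | ⟨i, rfl⟩
    · exact hβi.tower_top
    · exact hζi.tower_top
    · exact (hri i).tower_top
  have hNF : NumberField L := { to_charZero := inferInstance, to_finiteDimensional := hfd }
  have hinjL : Function.Injective (algebraMap L ℂ) := (algebraMap L ℂ).injective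
  have hβL : β ∈ L := IntermediateField.subset_adjoin ℚ _ (Or.inl (Set.mem_insert _ _))
  have hζL : ζ ∈ L := IntermediateField.subset_adjoin ℚ _
    (Or.inl (Set.mem_insert_of_mem _ (Set.mem_singleton _)))
  have hrL : ∀ i, r i ∈ L := fun i => IntermediateField.subset_adjoin ℚ _ (Or.inr ⟨i, rfl⟩)
  obtain ⟨B, hB⟩ : ∃ B : 𝓞 L, algebraMap L ℂ (algebraMap (𝓞 L) L B) = β := by
    refine ⟨⟨⟨β, hβL⟩, (isIntegral_algebraMap_iff hinjL).mp ?_⟩, rfl⟩
    exact hβi
  obtain ⟨Z, hZ⟩ : ∃ Z : 𝓞 L, algebraMap L ℂ (algebraMap (𝓞 L) L Z) = ζ := by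
    refine ⟨⟨⟨ζ, hζL⟩, (isIntegral_algebraMap_iff hinjL).mp ?_⟩, rfl⟩
    exact hζi
  have hR' : ∀ i, ∃ R : 𝓞 L, algebraMap L ℂ (algebraMap (𝓞 L) L R) = r i := by
    intro i
    refine ⟨⟨⟨r i, hrL i⟩, (isIntegral_algebraMap_iff hinjL).mp ?_⟩, rfl⟩
    exact hri i
  choose R hR using hR'
  set ι : 𝓞 L →+* ℂ := (algebraMap L ℂ).comp (algebraMap (𝓞 L) L) with hι
  have hιinj : Function.Injective ι :=
    hinjL.comp (FaithfulSMul.algebraMap_injective (𝓞 L) L)
  have hιB : ι B = β := hB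
  have hιZ : ι Z = ζ := hZ
  have hιR : ∀ i, ι (R i) = r i := hR
  have hAB : aeval B A = (D.c : 𝓞 L) := by
    apply hιinj
    rw [hom_aeval, hιB, hAβC, map_intCast]
  have hAR : A.map (Int.castRingHom (𝓞 L)) = pA R := by
    apply Polynomial.map_injective ι hιinj
    rw [Polynomial.map_map]
    have h1 : ι.comp (Int.castRingHom (𝓞 L)) = Int.castRingHom ℂ := RingHom.ext_int _ _
    rw [h1, hrA, pA, pA, Polynomial.map_prod]
    refine Finset.prod_congr rfl fun i _ => ?_
    rw [Polynomial.map_sub, map_X, map_C, hιR]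
  have hcyc : aeval Z (cyclotomic M₀ ℤ) = 0 := by
    apply hιinj
    rw [hom_aeval, hιZ, map_zero]
    have h1 := hζp.isRoot_cyclotomic (by omega)
    rw [IsRoot.def, ← map_cyclotomic_int, eval_map] at h1
    rw [aeval_def]
    exact h1
  set e : 𝓞 L := aeval B (derivative A) * (∏ j, (B - (D.pt j : 𝓞 L))) *
    ∏ i, ∏ l ∈ Finset.univ.erase i, (R i - R l) with he
  have he0 : e ≠ 0 := by
    rw [he]
    refine mul_ne_zero (mul_ne_zero ?_ ?_) ?_
    · intro h
      apply hA'β
      rw [← hιB, ← hom_aeval, h, map_zero]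
    · refine Finset.prod_ne_zero_iff.mpr fun j _ h => ?_
      apply hβpt j
      rw [sub_eq_zero] at h
      rw [← hιB, h, map_intCast]
    · refine Finset.prod_ne_zero_iff.mpr fun i _ => Finset.prod_ne_zero_iff.mpr fun l hl h => ?_
      rw [Finset.mem_erase] at hl
      apply hl.1
      apply hrinj
      rw [sub_eq_zero] at h
      rw [← hιR, ← hιR, h]
  set N := Ideal.absNorm (Ideal.span {e}) with hN
  have hN0 : N ≠ 0 := by
    rw [hN, Ne, Ideal.absNorm_eq_zero_iff, Ideal.span_singleton_eq_bot]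
    exact he0
  obtain ⟨e', he'⟩ : e ∣ (N : 𝓞 L) := Ideal.mem_span_singleton.mp (Ideal.absNorm_mem _)
  obtain ⟨q, hq, φ, hqQ⟩ := exists_hom L (max Q₀ (max N M₀))
  have hfq : Fact q.Prime := ⟨hq⟩
  have hqQ' : Q₀ < q := lt_of_le_of_lt (le_max_left _ _) hqQ
  have hqN : N < q := lt_of_le_of_lt ((le_max_left _ _).trans (le_max_right _ _)) hqQ
  have hqM : M₀ < q := lt_of_le_of_lt ((le_max_right _ _).trans (le_max_right _ _)) hqQ
  have hφe : φ e ≠ 0 := by
    intro h
    have h1 := congrArg φ he'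
    rw [map_mul, h, zero_mul, map_natCast, ZMod.natCast_eq_zero_iff] at h1
    exact absurd (Nat.le_of_dvd (Nat.pos_of_ne_zero hN0) h1) (by omega)
  rw [he, map_mul, map_mul] at hφe
  have hφ3 := right_ne_zero_of_mul hφe
  have hφ1 := left_ne_zero_of_mul (left_ne_zero_of_mul hφe)
  have hφ2 := right_ne_zero_of_mul (left_ne_zero_of_mul hφe)
  have hmapq : A.map (Int.castRingHom (ZMod q)) = pA (fun i => φ (R i)) := by
    have h1 : φ.comp (Int.castRingHom (𝓞 L)) = Int.castRingHom (ZMod q) := RingHom.ext_int _ _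
    rw [← h1, ← Polynomial.map_map, hAR, pA, pA, Polynomial.map_prod]
    refine Finset.prod_congr rfl fun i _ => ?_
    rw [Polynomial.map_sub, map_X, map_C]
  have hevq : ∀ (x : ZMod q) (p : ℤ[X]), (p.map (Int.castRingHom (ZMod q))).eval x = aeval x p := by
    intro x p
    rw [eval_map, aeval_def]
    rfl
  refine ⟨q, hfq, hqQ', ?_, fun i => φ (R i), φ B, ?_, hmapq, ?_, ?_, ?_⟩
  · have h1 : aeval (φ Z) (cyclotomic M₀ ℤ) = 0 := by
      rw [← hom_aeval, hcyc, map_zero]
    have hM0 : (M₀ : ZMod q) ≠ 0 := by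
      rw [Ne, ZMod.natCast_eq_zero_iff]
      intro h
      exact absurd (Nat.le_of_dvd (by omega) h) (by omega)
    have : NeZero (M₀ : ZMod q) := ⟨hM0⟩
    have h2 : IsRoot (cyclotomic M₀ (ZMod q)) (φ Z) := by
      rw [IsRoot.def, ← map_cyclotomic_int, eval_map]
      rw [aeval_def] at h1
      exact h1
    rw [isRoot_cyclotomic_iff] at h2
    exact h2.dvd_of_pow_eq_one _ (ZMod.pow_card_sub_one_eq_one (h2.ne_zero (by omega)))
  · intro i l hil
    by_contra hne
    apply hφ3
    rw [map_prod]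
    refine Finset.prod_eq_zero (Finset.mem_univ i) ?_
    rw [map_prod]
    refine Finset.prod_eq_zero (Finset.mem_erase.mpr ⟨fun h => hne h.symm, Finset.mem_univ l⟩) ?_
    rw [map_sub, sub_eq_zero]
    exact hil
  · rw [← hmapq, hevq, ← hom_aeval, hAB, map_intCast]
  · rw [← hmapq, derivative_map, hevq, ← hom_aeval]
    exact hφ1
  · intro j h
    apply hφ2
    rw [map_prod]
    refine Finset.prod_eq_zero (Finset.mem_univ j) ?_
    rw [map_sub, map_intCast, sub_eq_zero]
    exact h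

end Run7.h141.CK
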