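import Pool.Agent.Run7.h373.CK.Stm
import Pool.Agent.W289.CG.Test

/-!
Piece TST of project CK (helper373): existence of the test primes.
-/

set_option autoImplicit false

namespace Run7.h141.CK

open Polynomial Pool.Agent.W289.CG Pool.Agent.Run7.h373.CK

lemma ev_cast {q : ℕ} (A : ℤ[X]) (x : ℤ) :
    (A.map (Int.castRingHom (ZMod q))).eval (x : ZMod q) = ((A.eval x : ℤ) : ZMod q) := by
  rw [eval_intCast_map]
  simp

lemma der_cast {q : ℕ} (A : ℤ[X]) (x : ℤ) :
    (derivative (A.map (Int.castRingHom (ZMod q)))).eval (x : ZMod q) =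
      (((derivative A).eval x : ℤ) : ZMod q) := by
  rw [derivative_map, eval_intCast_map]
  simp

/-- the cofactor modulo `q` is the product over the remaining roots -/
lemma cofactor {q n M : ℕ} [Fact q.Prime] (D : Dt n M) (a : Fin n → ZMod q)
    (hA : D.A.map (Int.castRingHom (ZMod q)) = pA a)
    (σ : Fin (M + 1) → Fin n) (hσ : ∀ l, D.A.eval (D.pt l) = 0 → a (σ l) = (D.pt l : ZMod q))
    (hinj : Set.InjOn σ (Finset.univ.filter fun i => D.A.eval (D.pt i) = 0)) :
    D.Q.map (Int.castRingHom (ZMod q)) =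
      ∏ i ∈ Finset.univ \ (Finset.univ.filter fun i => D.A.eval (D.pt i) = 0).image σ,
        (X - C (a i)) := by
  classical
  set I := Finset.univ.filter fun i => D.A.eval (D.pt i) = 0 with hI
  have h1 : D.A.map (Int.castRingHom (ZMod q)) =
      D.Q.map (Int.castRingHom (ZMod q)) * ∏ i ∈ I, (X - C (D.pt i : ZMod q)) := by
    conv_lhs => rw [D.hfac]
    rw [Polynomial.map_mul, Polynomial.map_prod]
    congr 1
    refine Finset.prod_congr rfl fun i _ => ?_
    rw [Polynomial.map_sub, map_X, map_C]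
    simp
  have h2 : pA a = (∏ i ∈ Finset.univ \ I.image σ, (X - C (a i))) *
      ∏ i ∈ I.image σ, (X - C (a i)) := by
    rw [pA, Finset.prod_sdiff (Finset.subset_univ _)]
  have h3 : ∏ i ∈ I.image σ, (X - C (a i)) = ∏ i ∈ I, (X - C (D.pt i : ZMod q)) := by
    rw [Finset.prod_image hinj]
    refine Finset.prod_congr rfl fun i hi => ?_
    rw [hI, Finset.mem_filter] at hi
    rw [hσ i hi.2]
  rw [h1, h2, h3] at hA
  exact mul_right_cancel₀ (monic_prod_X_sub_C _ _).ne_zero hA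

lemma bad_ne' {n M : ℕ} (D : Dt n M) : D.bad ≠ 0 :=
  Finset.prod_ne_zero_iff.2 fun i _ => D.hder i

theorem t_TST (hW : TaskWeil) (hS : S_SPL) : S_TST := by
  classical
  intro n M D m hn hm τ hτ hτm hτp Q₀
  -- the points of level `c`
  set J := Finset.univ.filter fun i => D.A.eval (D.pt i) ≠ 0 with hJ
  set I := Finset.univ.filter fun i => D.A.eval (D.pt i) = 0 with hI
  have hJc : ∀ i ∈ J, D.A.eval (D.pt i) = D.c := by
    intro i hi
    rw [hJ, Finset.mem_filter] at hi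
    rcases D.hval i with h | h
    · exact absurd h hi.2
    · exact h
  set k := J.card with hk
  obtain ⟨ε, hε⟩ : ∃ ε : Fin k ≃ J, ε = J.equivFin.symm := ⟨_, rfl⟩
  obtain ⟨Q₁, hQ₁⟩ := hW n k m hn hm
  set Z : ℤ := D.c * D.bad * (∏ i, ∏ l ∈ Finset.univ.erase i, (D.pt i - D.pt l)) with hZ
  have hZ0 : Z ≠ 0 := by
    have h3 : (∏ i, ∏ l ∈ Finset.univ.erase i, (D.pt i - D.pt l)) ≠ 0 := by
      refine Finset.prod_ne_zero_iff.2 fun i _ => Finset.prod_ne_zero_iff.2 fun l hl => ?_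
      rw [Finset.mem_erase] at hl
      exact sub_ne_zero.2 fun h => hl.1 (D.hpt h).symm
    exact mul_ne_zero (mul_ne_zero D.hc.ne' (bad_ne' D)) h3
  obtain ⟨q, hfq, hqQ, hqM, a, β, hainj, hAa, hβ, hβd, hβpt⟩ :=
    hS n M D (2 * m) (Q₀ + Q₁ + Z.natAbs) (by omega)
  have hq : q.Prime := hfq.out
  have hqZ : ¬ (q : ℤ) ∣ Z := not_dvd_of_lt hZ0 (by omega)
  have hqc : ¬ (q : ℤ) ∣ D.c := fun h => hqZ (by
    rw [hZ]; exact Dvd.dvd.mul_right (Dvd.dvd.mul_right h _) _)
  have hqbad : ¬ (q : ℤ) ∣ D.bad := fun h => hqZ (by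
    rw [hZ]; exact Dvd.dvd.mul_right (Dvd.dvd.mul_left h _) _)
  have hqpt : ∀ i l, (D.pt i : ZMod q) = (D.pt l : ZMod q) → i = l := by
    intro i l hil
    by_contra hne
    apply hqZ
    rw [hZ]
    refine Dvd.dvd.mul_left ?_ _
    have h : (q : ℤ) ∣ D.pt i - D.pt l := by
      rw [← zmod_iff]
      push_cast
      exact sub_eq_zero.2 hil
    exact (h.trans (Finset.dvd_prod_of_mem (fun l => D.pt i - D.pt l)
      (Finset.mem_erase.2 ⟨fun h => hne h.symm, Finset.mem_univ l⟩))).trans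
      (Finset.dvd_prod_of_mem (fun i => ∏ l ∈ Finset.univ.erase i, (D.pt i - D.pt l))
        (Finset.mem_univ i))
  have hpA : ∀ x : ℤ, (pA a).eval (x : ZMod q) = ((D.A.eval x : ℤ) : ZMod q) := fun x => by
    rw [← hAa]; exact ev_cast _ x
  have hdA : ∀ x : ℤ, (derivative (pA a)).eval (x : ZMod q) =
      (((derivative D.A).eval x : ℤ) : ZMod q) := fun x => by
    rw [← hAa]; exact der_cast _ x
  have hcz : ((D.c : ℤ) : ZMod q) ≠ 0 := by rw [Ne, zmod_iff]; exact hqc
  -- the roots belonging to the points of level `0`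
  have hσex : ∀ l : Fin (M + 1), ∃ i : Fin n, D.A.eval (D.pt l) = 0 → a i = (D.pt l : ZMod q) := by
    intro l
    by_cases h : D.A.eval (D.pt l) = 0
    · have h1 := hpA (D.pt l)
      rw [h, eval_pA, Int.cast_zero, Finset.prod_eq_zero_iff] at h1
      obtain ⟨i, -, hi⟩ := h1
      exact ⟨i, fun _ => (sub_eq_zero.1 hi).symm⟩
    · exact ⟨⟨0, by omega⟩, fun h' => absurd h' h⟩
  choose σ hσ using hσex
  have hmemI : ∀ {l}, l ∈ I → D.A.eval (D.pt l) = 0 := fun {l} hl => by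
    rw [hI, Finset.mem_filter] at hl
    exact hl.2
  have hinj : Set.InjOn σ (I : Set (Fin (M + 1))) := by
    intro l hl l' hl' h
    have h1 := hσ l (hmemI (Finset.mem_coe.1 hl))
    have h2 := hσ l' (hmemI (Finset.mem_coe.1 hl'))
    rw [h, h2] at h1
    exact (hqpt _ _ h1).symm
  have hcof := cofactor D a hAa σ hσ hinj
  -- the exponents
  obtain ⟨g, hg⟩ : ∃ g : Fin n → ℕ, g = fun i => if h : ∃ l ∈ I, σ l = i then τ.2.1 h.choose
      else τ.2.2 := ⟨_, rfl⟩
  have hg1 : ∀ l ∈ I, g (σ l) = τ.2.1 l := by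
    intro l hl
    have hex : ∃ l' ∈ I, σ l' = σ l := ⟨l, hl, rfl⟩
    have h1 : g (σ l) = τ.2.1 hex.choose := by
      rw [hg]
      exact dif_pos hex
    rw [h1, hinj (Finset.mem_coe.2 hex.choose_spec.1) (Finset.mem_coe.2 hl) hex.choose_spec.2]
  have hg2 : ∀ i ∈ Finset.univ \ I.image σ, g i = τ.2.2 := by
    intro i hi
    rw [hg]
    refine dif_neg ?_
    rintro ⟨l, hl, rfl⟩
    rw [Finset.mem_sdiff] at hi
    exact hi.2 (Finset.mem_image_of_mem _ hl)
  have hex : ∃ p : Fin n ⊕ Fin k, ¬ τ.1 ∣ Sum.elim g (fun j => τ.2.1 (ε j)) p := by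
    rcases hτp with ⟨i, hi⟩ | h0
    · by_cases h : D.A.eval (D.pt i) = 0
      · refine ⟨Sum.inl (σ i), ?_⟩
        rw [Sum.elim_inl, hg1 i (by rw [hI, Finset.mem_filter]; exact ⟨Finset.mem_univ _, h⟩)]
        exact hi
      · have hiJ : i ∈ J := by rw [hJ, Finset.mem_filter]; exact ⟨Finset.mem_univ _, h⟩
        refine ⟨Sum.inr (ε.symm ⟨i, hiJ⟩), ?_⟩
        rw [Sum.elim_inr, Equiv.apply_symm_apply]
        exact hi
    · have hne : (Finset.univ \ I.image σ).Nonempty := by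
        rw [Finset.nonempty_iff_ne_empty]
        intro hemp
        rw [hemp, Finset.prod_empty] at hcof
        have h1 : (D.Q.map (Int.castRingHom (ZMod q))).natDegree = D.Q.natDegree :=
          D.hQ.natDegree_map _
        rw [hcof, natDegree_one] at h1
        exact D.hQ1.ne h1
      obtain ⟨i, hi⟩ := hne
      refine ⟨Sum.inl i, ?_⟩
      rw [Sum.elim_inl, hg2 i hi]
      exact h0
  obtain ⟨x, u, hx1, hx2, hx3, hu, hxu, hy⟩ := hQ₁ q (by omega) hqM a
    (fun j => (D.pt (ε j) : ZMod q)) (D.c : ZMod q) β hainj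
    (by
      intro i l hil
      exact ε.injective (Subtype.ext (hqpt _ _ hil)))
    hcz
    (by
      intro j
      rw [hpA, hJc _ (ε j).2])
    (by
      intro j
      rw [hdA, Ne, zmod_iff]
      exact fun h => hqbad (h.trans (Finset.dvd_prod_of_mem _ (Finset.mem_univ _))))
    hβ hβd (fun j => hβpt _) τ.1 hτ hτm _ hex
  obtain ⟨x, rfl⟩ := ZMod.intCast_surjective x
  obtain ⟨u, rfl⟩ := ZMod.intCast_surjective u
  rw [hpA] at hx1 hx2 hxu
  rw [hdA] at hx3
  refine ⟨q, hq, by omega, u, 1, ?_, x, ⟨hq, hqc, ?_, ?_, ?_⟩, ?_, ?_, ?_⟩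
  · rw [← zmod_iff]; exact hu
  · rw [← zmod_iff]
    push_cast
    rw [one_pow, one_mul, ← hxu, sub_self]
  · rw [← zmod_iff]
    push_cast
    intro h
    have h1 : (u : ZMod q) ^ m = 1 := by
      rw [one_pow] at h
      exact (sub_eq_zero.1 h).symm
    rw [h1, one_mul] at hxu
    exact hcz (by linear_combination hxu)
  · rw [← zmod_iff]; exact hx3
  · intro p hp
    rw [← zmod_iff] at hp
    push_cast at hp
    have h1 : (x : ZMod q) = (D.pt p : ZMod q) := sub_eq_zero.1 hp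
    rcases D.hval p with h | h
    · apply hx1
      rw [← hpA, h1, hpA, h, Int.cast_zero]
    · apply hx2
      rw [← hpA, h1, hpA, h]
  · rw [← zmod_iff]
    intro h
    apply hx1
    rw [D.hfac, eval_mul]
    push_cast
    rw [h, zero_mul]
  · intro y
    have h1 := hy y
    have h2 : ∏ p : Fin n ⊕ Fin k, ((x : ZMod q) - Sum.elim a (fun j => (D.pt (ε j) : ZMod q)) p) ^
        (Sum.elim g (fun j => τ.2.1 (ε j)) p) =
        (∏ i, ((x : ZMod q) - (D.pt i : ZMod q)) ^ τ.2.1 i) *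
          ((D.Q.eval x : ℤ) : ZMod q) ^ τ.2.2 := by
      rw [Fintype.prod_sum_type]
      simp only [Sum.elim_inl, Sum.elim_inr]
      have hQx : ((D.Q.eval x : ℤ) : ZMod q) =
          ∏ i ∈ Finset.univ \ I.image σ, ((x : ZMod q) - a i) := by
        rw [← ev_cast, hcof, eval_prod]
        refine Finset.prod_congr rfl fun i _ => ?_
        rw [eval_sub, eval_X, eval_C]
      have h3 : ∏ i, ((x : ZMod q) - a i) ^ g i =
          ((D.Q.eval x : ℤ) : ZMod q) ^ τ.2.2 *
            ∏ l ∈ I, ((x : ZMod q) - (D.pt l : ZMod q)) ^ τ.2.1 l := by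
        rw [← Finset.prod_sdiff (Finset.subset_univ (I.image σ)), hQx, ← Finset.prod_pow]
        congr 1
        · refine Finset.prod_congr rfl fun i hi => ?_
          rw [hg2 i hi]
        · rw [Finset.prod_image hinj]
          refine Finset.prod_congr rfl fun l hl => ?_
          rw [hg1 l hl, hσ l (hmemI hl)]
      have h4 : ∏ j : Fin k, ((x : ZMod q) - (D.pt (ε j) : ZMod q)) ^ τ.2.1 (ε j) =
          ∏ l ∈ J, ((x : ZMod q) - (D.pt l : ZMod q)) ^ τ.2.1 l := by
        rw [Equiv.prod_comp ε (fun l : J => ((x : ZMod q) - (D.pt l : ZMod q)) ^ τ.2.1 l)]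
        exact Finset.prod_coe_sort J (fun l => ((x : ZMod q) - (D.pt l : ZMod q)) ^ τ.2.1 l)
      have h5 : ∏ i, ((x : ZMod q) - (D.pt i : ZMod q)) ^ τ.2.1 i =
          (∏ l ∈ I, ((x : ZMod q) - (D.pt l : ZMod q)) ^ τ.2.1 l) *
            ∏ l ∈ J, ((x : ZMod q) - (D.pt l : ZMod q)) ^ τ.2.1 l :=
        (Finset.prod_filter_mul_prod_filter_not Finset.univ _ _).symm
      rw [h3, h4, h5]
      ring
    rw [h2] at h1
    exact h1

end Run7.h141.CK
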